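import Mathlib
import Pool.Agent.W4.CF.Stms

/-!
Project CF, part B: pairs such that the value of the norm form is a given number times a
`k`-th power.
-/

set_option autoImplicit false

namespace Pool.Agent.W4.CF

open NumberField Finset

namespace PB

lemma card_le_real {α β : Type*} [DecidableEq β] (f : α → β) (s : Finset α) (a b : ℝ) (ha : 0 ≤ a)
    (hfib : ∀ y ∈ s.image f, ((s.filter (fun x => f x = y)).card : ℝ) ≤ a)
    (himg : ((s.image f).card : ℝ) ≤ b) : (s.card : ℝ) ≤ b * a := by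
  rw [Finset.card_eq_sum_card_image f s]
  push_cast
  calc (∑ y ∈ s.image f, ((s.filter (fun x => f x = y)).card : ℝ))
      ≤ ∑ y ∈ s.image f, a := Finset.sum_le_sum hfib
    _ = (s.image f).card * a := by rw [Finset.sum_const, nsmul_eq_mul]
    _ ≤ b * a := mul_le_mul_of_nonneg_right himg ha

variable {K : Type} [Field K] [NumberField K]

lemma prodN (x : 𝓞 K) : ∏ σ : K →+* ℂ, ‖σ (x : K)‖ = ((Algebra.norm ℤ x).natAbs : ℝ) := by
  have h1 := congrArg (‖·‖) (Algebra.norm_eq_prod_embeddings ℚ ℂ (x : K))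
  simp only [norm_prod] at h1
  rw [← Fintype.prod_equiv (RingHom.equivRatAlgHom K ℂ) (fun f => ‖f (x : K)‖)
      (fun φ => ‖φ (x : K)‖) fun _ => by simp [RingHom.equivRatAlgHom_apply]] at h1
  rw [← h1, ← Algebra.coe_norm_int, eq_ratCast, Rat.cast_intCast, Complex.norm_intCast,
    Nat.cast_natAbs, Int.cast_abs]

lemma card_emb (hd : Module.finrank ℚ K = 3) : (Finset.univ : Finset (K →+* ℂ)).card = 3 := by
  rw [Finset.card_univ, NumberField.Embeddings.card, hd]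

/-- algebraic part -/
lemma alg (hd : Module.finrank ℚ K = 3) {ξ : 𝓞 K} {c z k : ℕ} (hc : 1 ≤ c)
    (I J : Ideal (𝓞 K)) (hI : Ideal.absNorm I = c) (hJ : Ideal.absNorm J = z)
    (h : Ideal.span {ξ} = I * J ^ k) (δ : 𝓞 K) (hδ : δ ∈ J) (hδ0 : δ ≠ 0) :
    ∃ (e : ℕ) (τ : 𝓞 K), 1 ≤ e ∧ (Algebra.norm ℤ δ).natAbs = z * e ∧ τ ∈ I ∧ τ ≠ 0 ∧
      (Algebra.norm ℤ τ).natAbs = e ^ (2 * k) * c ∧ (e : 𝓞 K) ^ k * ξ = δ ^ k * τ := by
  obtain ⟨E, hE⟩ := Ideal.dvd_span_singleton.2 hδ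
  have hN : (Algebra.norm ℤ δ).natAbs = z * Ideal.absNorm E := by
    rw [← Ideal.absNorm_span_singleton, hE, map_mul, hJ]
  have he : 1 ≤ Ideal.absNorm E := by
    rw [Nat.one_le_iff_ne_zero]
    intro h0
    rw [h0, mul_zero, Int.natAbs_eq_zero, Algebra.norm_eq_zero_iff] at hN
    exact hδ0 hN
  obtain ⟨F, hF⟩ := Ideal.dvd_span_singleton.2 (Ideal.absNorm_mem E)
  have hNF : Ideal.absNorm F = Ideal.absNorm E ^ 2 := by
    have h1 := congrArg Ideal.absNorm hF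
    rw [Ideal.absNorm_span_natCast, map_mul, RingOfIntegers.rank, hd, pow_succ, mul_comm] at h1
    exact (Nat.eq_of_mul_eq_mul_left he h1).symm
  have h1 : Ideal.span {(Ideal.absNorm E : 𝓞 K) ^ k * ξ} = Ideal.span {δ ^ k} * (I * F ^ k) := by
    rw [← Ideal.span_singleton_mul_span_singleton, ← Ideal.span_singleton_pow,
      ← Ideal.span_singleton_pow, hF, hE, h]
    ring
  have h2 : δ ^ k ∣ (Ideal.absNorm E : 𝓞 K) ^ k * ξ := by
    rw [← Ideal.mem_span_singleton, ← Ideal.dvd_span_singleton, h1]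
    exact Dvd.intro _ rfl
  obtain ⟨τ, hτ⟩ := h2
  have h3 : Ideal.span {τ} = I * F ^ k := by
    have h4 : Ideal.span {δ ^ k} ≠ 0 := by
      rw [Ne, Ideal.zero_eq_bot, Ideal.span_singleton_eq_bot]
      exact pow_ne_zero _ hδ0
    apply mul_left_cancel₀ h4
    rw [Ideal.span_singleton_mul_span_singleton, ← hτ, h1]
  have h5 : (Algebra.norm ℤ τ).natAbs = Ideal.absNorm E ^ (2 * k) * c := by
    rw [← Ideal.absNorm_span_singleton, h3, map_mul, map_pow, hI, hNF, ← pow_mul, mul_comm]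
  refine ⟨Ideal.absNorm E, τ, he, hN, ?_, ?_, h5, hτ⟩
  · rw [← Ideal.dvd_span_singleton, h3]
    exact Dvd.intro _ rfl
  · rintro rfl
    rw [Algebra.norm_zero, Int.natAbs_zero] at h5
    have : 0 < Ideal.absNorm E ^ (2 * k) * c := by positivity
    omega

/-- analytic part -/
lemma size (hd : Module.finrank ℚ K = 3) {C1 : ℝ} (_hC1 : 1 ≤ C1) {z e : ℕ} (hz : 1 ≤ z)
    (he : 1 ≤ e) (δ : 𝓞 K) (hN : (Algebra.norm ℤ δ).natAbs = z * e)
    (hσ : ∀ σ : K →+* ℂ, ‖σ (δ : K)‖ ≤ C1 * (z : ℝ) ^ ((1 : ℝ) / 3)) :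
    (e : ℝ) ≤ C1 ^ 3 ∧ ∀ σ : K →+* ℂ, 1 ≤ C1 ^ 2 * ‖σ (δ : K)‖ := by
  classical
  have hz' : (1 : ℝ) ≤ z := by exact_mod_cast hz
  have he' : (1 : ℝ) ≤ e := by exact_mod_cast he
  set w : ℝ := (z : ℝ) ^ ((1 : ℝ) / 3) with hw
  have hw1 : 1 ≤ w := Real.one_le_rpow hz' (by norm_num)
  have hw3 : w ^ 3 = z := by
    rw [hw, ← Real.rpow_natCast, ← Real.rpow_mul (by positivity)]
    norm_num
  have hP : ∏ σ : K →+* ℂ, ‖σ (δ : K)‖ = z * e := by
    rw [prodN, hN]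
    push_cast
    rfl
  constructor
  · have h1 : ∏ σ : K →+* ℂ, ‖σ (δ : K)‖ ≤ ∏ _σ : K →+* ℂ, (C1 * w) :=
      Finset.prod_le_prod (fun _ _ => norm_nonneg _) (fun σ _ => hσ σ)
    rw [Finset.prod_const, card_emb hd, hP, mul_pow, hw3] at h1
    nlinarith
  · intro σ
    have h1 : ∏ σ' ∈ Finset.univ.erase σ, ‖σ' (δ : K)‖ ≤ ∏ _σ' ∈ Finset.univ.erase σ, (C1 * w) :=
      Finset.prod_le_prod (fun _ _ => norm_nonneg _) (fun σ _ => hσ σ)
    rw [Finset.prod_const, Finset.card_erase_of_mem (Finset.mem_univ _), card_emb hd] at h1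
    rw [← Finset.mul_prod_erase Finset.univ _ (Finset.mem_univ σ)] at hP
    have h2 : w ^ 3 ≤ ‖σ (δ : K)‖ * (C1 * w) ^ 2 := by
      calc w ^ 3 = z := hw3
        _ ≤ z * e := by nlinarith
        _ = _ := hP.symm
        _ ≤ _ := mul_le_mul_of_nonneg_left h1 (norm_nonneg _)
    have h3 : w ^ 2 * w ≤ w ^ 2 * (C1 ^ 2 * ‖σ (δ : K)‖) := by
      calc w ^ 2 * w = w ^ 3 := by ring
        _ ≤ _ := h2
        _ = _ := by ring
    exact hw1.trans (le_of_mul_le_mul_left h3 (by positivity))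

end PB

open PB

theorem t_B (h1 : S_DIVS) (h2 : S_TAU) (h3 : S_MINK) (h4 : S_SZ) (h5 : S_LIN) (h6 : S_IDEAL)
    (h7 : S_NRM) : S_B := by
  classical
  intro K _ _ ρ A B i hC hI k ε hk hε
  have hd : Module.finrank ℚ K = 3 := hC.1
  obtain ⟨C1, hC1, hmink⟩ := h3 K
  obtain ⟨L, hL0, hL⟩ := h5 K ρ A B hC
  let Mr : ℝ := ∑ σ : K →+* ℂ, ‖σ (ρ : K)‖
  have hMr : ∀ σ : K →+* ℂ, ‖σ (ρ : K)‖ ≤ Mr := fun σ =>
    Finset.single_le_sum (f := fun σ : K →+* ℂ => ‖σ (ρ : K)‖) (fun _ _ => norm_nonneg _)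
      (Finset.mem_univ σ)
  have hMr0 : 0 ≤ Mr := Finset.sum_nonneg fun _ _ => norm_nonneg _
  let E : ℕ := ⌊C1 ^ 3⌋₊
  have hE1 : 1 ≤ E := Nat.le_floor (by
    push_cast
    exact one_le_pow₀ hC1)
  have hE1' : (1 : ℝ) ≤ E := by exact_mod_cast hE1
  let C2 : ℝ := (E : ℝ) ^ (2 * k)
  have hC2 : 0 < C2 := by positivity
  let C3 : ℝ := (E : ℝ) ^ k * (1 + Mr) * (C1 ^ 2) ^ k
  have hC3 : 1 ≤ C3 := by
    have a1 : (1 : ℝ) ≤ (E : ℝ) ^ k := one_le_pow₀ hE1'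
    have a2 : (1 : ℝ) ≤ (C1 ^ 2) ^ k := one_le_pow₀ (one_le_pow₀ hC1)
    have a3 : (1 : ℝ) ≤ (E : ℝ) ^ k * (1 + Mr) := by nlinarith
    nlinarith
  obtain ⟨D1, hD1, hdivs⟩ := h1 K ε hε
  obtain ⟨D2, hD2, htau⟩ := h2 K C2 ε hC2 hε
  obtain ⟨D4, hD4, hsz⟩ := h4 K k hk
  refine ⟨D1 * (E * (D2 * C3 ^ ε * (D4 * C1 ^ 2))), by positivity, ?_⟩
  intro Y Z hY hZ c hc s hs
  have core : ∀ p : ℤ × ℤ, p ∈ s → ∃ (I : Ideal (𝓞 K)) (e : ℕ) (τ δ : 𝓞 K),
      Ideal.absNorm I = c ∧ 1 ≤ e ∧ e ≤ E ∧ τ ∈ I ∧ τ ≠ 0 ∧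
      ((Algebra.norm ℤ τ).natAbs : ℝ) ≤ C2 * (Ideal.absNorm I : ℝ) ∧
      (∀ σ : K →+* ℂ, ‖σ (τ : K)‖ ≤ C3 * Y) ∧
      (∀ σ : K →+* ℂ, ‖σ (δ : K)‖ ≤ C1 * Z ^ ((1 : ℝ) / 3)) ∧ L ((τ : K) * (δ : K) ^ k) = 0 ∧
      (e : 𝓞 K) ^ k * ((p.1 : 𝓞 K) - p.2 * ρ) = δ ^ k * τ ∧ δ ≠ 0 := by
    rintro ⟨u, v⟩ hp
    obtain ⟨hcop, hu, hv, z, hz, hzZ, hzc, hG⟩ := hs _ hp
    obtain ⟨I, J, hI', hJ, hIJ⟩ := h6 K ρ A B i hC hI (h7 K ρ A B hC) u v c z k hcop hc hz hk hzc hG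
    have hJ0 : J ≠ ⊥ := by
      rintro rfl
      rw [Ideal.absNorm_bot] at hJ
      omega
    obtain ⟨δ, hδ, hδ0, hδσ⟩ := hmink J hJ0
    rw [hJ, hd] at hδσ
    obtain ⟨e, τ, he, hNδ, hτ, hτ0, hNτ, hrel⟩ := alg hd hc I J hI' hJ hIJ δ hδ hδ0
    obtain ⟨he3, hlow⟩ := size hd hC1 hz he δ hNδ (by exact_mod_cast hδσ)
    have heE : e ≤ E := Nat.le_floor he3
    have heE' : (e : ℝ) ≤ E := by exact_mod_cast heE
    have he' : (1 : ℝ) ≤ e := by exact_mod_cast he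
    have hrelK : (e : K) ^ k * ((u : K) - v * (ρ : K)) = (δ : K) ^ k * (τ : K) := by
      have := congrArg (fun x : 𝓞 K => (x : K)) hrel
      simpa using this
    refine ⟨I, e, τ, δ, hI', he, heE, hτ, hτ0, ?_, ?_, ?_, ?_, hrel, hδ0⟩
    · rw [hNτ, hI']
      push_cast
      exact mul_le_mul_of_nonneg_right (pow_le_pow_left₀ (by positivity) heE' _) (by positivity)
    · intro σ
      have g1 := congrArg (fun x => ‖σ x‖) hrelK
      simp only [map_mul, map_pow, norm_mul, norm_pow, map_natCast, Complex.norm_natCast] at g1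
      have g2 : ‖σ ((u : K) - v * (ρ : K))‖ ≤ (1 + Mr) * Y := by
        rw [map_sub, map_mul, map_intCast, map_intCast]
        refine (norm_sub_le _ _).trans ?_
        rw [norm_mul, Complex.norm_intCast, Complex.norm_intCast]
        have := mul_le_mul hv (hMr σ) (norm_nonneg _) (by linarith)
        nlinarith
      have g3 : (1 : ℝ) ≤ (C1 ^ 2) ^ k * ‖σ (δ : K)‖ ^ k := by
        rw [← mul_pow]
        exact one_le_pow₀ (hlow σ)
      calc ‖σ (τ : K)‖ ≤ ‖σ (τ : K)‖ * ((C1 ^ 2) ^ k * ‖σ (δ : K)‖ ^ k) :=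
            le_mul_of_one_le_right (norm_nonneg _) g3
        _ = (C1 ^ 2) ^ k * (‖σ (δ : K)‖ ^ k * ‖σ (τ : K)‖) := by ring
        _ = (C1 ^ 2) ^ k * ((e : ℝ) ^ k * ‖σ ((u : K) - v * (ρ : K))‖) := by rw [g1]
        _ ≤ (C1 ^ 2) ^ k * ((E : ℝ) ^ k * ((1 + Mr) * Y)) := by gcongr
        _ = C3 * Y := by
          simp only [C3]
          ring
    · intro σ
      refine (hδσ σ).trans ?_
      have : (z : ℝ) ^ ((1 : ℝ) / 3) ≤ Z ^ ((1 : ℝ) / 3) :=
        Real.rpow_le_rpow (by positivity) hzZ (by norm_num)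
      have h0 : 0 ≤ C1 := by linarith
      exact_mod_cast mul_le_mul_of_nonneg_left this h0
    · rw [mul_comm, ← hrelK]
      have : (e : K) ^ k * ((u : K) - v * (ρ : K)) = ((e : ℚ) ^ k) • ((u : K) - v * (ρ : K)) := by
        rw [Algebra.smul_def]
        push_cast
        simp
      rw [this, map_smul, hL, smul_zero]
  choose! I e τ δ hcore using core
  have hinj : ∀ p ∈ s, ∀ p' ∈ s, e p = e p' → τ p = τ p' → δ p = δ p' → p = p' := by
    rintro ⟨u, v⟩ hp ⟨u', v'⟩ hp' he hτ hδ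
    have a1 := (hcore _ hp).2.2.2.2.2.2.2.2.2.1
    have a2 := (hcore _ hp').2.2.2.2.2.2.2.2.2.1
    rw [he, hτ, hδ, ← a2] at a1
    have h0 : ((e (u', v') : ℕ) : 𝓞 K) ^ k ≠ 0 := by
      have := (hcore _ hp').2.1
      exact pow_ne_zero _ (by exact_mod_cast (by omega : e (u', v') ≠ 0))
    have a3 := mul_left_cancel₀ h0 a1
    have a4 : ((u : K) - v * (ρ : K)) = (u' : K) - v' * (ρ : K) := by
      have := congrArg (fun x : 𝓞 K => (x : K)) a3
      simpa using this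
    have hv : v = v' := by
      by_contra hne
      apply hC.2.1 (((u : ℚ) - u') / ((v : ℚ) - v'))
      have hne' : ((v : K) - v') ≠ 0 := by
        rw [sub_ne_zero]
        exact_mod_cast hne
      have : (ρ : K) = ((u : K) - u') / ((v : K) - v') := by
        rw [eq_div_iff hne']
        linear_combination -a4
      rw [this]
      push_cast
      simp
    subst hv
    have hu : u = u' := by
      have a5 : (u : K) = u' := by linear_combination a4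
      exact_mod_cast a5
    rw [hu]
  have hT : 1 ≤ C3 * Y := by nlinarith
  have hB : 1 ≤ C1 * Z ^ ((1 : ℝ) / 3) := by
    have := Real.one_le_rpow hZ (by norm_num : (0 : ℝ) ≤ 1 / 3)
    nlinarith
  have hb4 : 0 ≤ D4 * (C1 * Z ^ ((1 : ℝ) / 3)) ^ 2 := by positivity
  have hb3 : 0 ≤ D2 * (C3 * Y) ^ ε * (D4 * (C1 * Z ^ ((1 : ℝ) / 3)) ^ 2) := by positivity
  have hb2 : 0 ≤ (E : ℝ) * (D2 * (C3 * Y) ^ ε * (D4 * (C1 * Z ^ ((1 : ℝ) / 3)) ^ 2)) := by
    positivity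
  have key : (s.card : ℝ) ≤ D1 * (c : ℝ) ^ ε *
      ((E : ℝ) * (D2 * (C3 * Y) ^ ε * (D4 * (C1 * Z ^ ((1 : ℝ) / 3)) ^ 2))) := by
    apply card_le_real I s _ _ hb2
    · intro J hJ
      obtain ⟨p0, hp0, rfl⟩ := Finset.mem_image.1 hJ
      apply card_le_real e _ _ _ hb3
      · intro e0 _
        apply card_le_real τ _ _ _ hb4
        · intro τ0 hτ0
          obtain ⟨p1, hp1, rfl⟩ := Finset.mem_image.1 hτ0
          have hp1s : p1 ∈ s := (Finset.mem_filter.1 (Finset.mem_filter.1 hp1).1).1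
          set s3 := {x ∈ {x ∈ {x ∈ s | I x = I p0} | e x = e0} | τ x = τ p1} with hs3
          have hmem : ∀ p ∈ s3, p ∈ s ∧ e p = e0 ∧ τ p = τ p1 := by
            intro p hp
            simp only [hs3, Finset.mem_filter] at hp
            exact ⟨hp.1.1.1, hp.1.2, hp.2⟩
          have hcard : (s3.image δ).card = s3.card := by
            apply Finset.card_image_of_injOn
            intro p hp p' hp' hδ
            obtain ⟨b1, b2, b3⟩ := hmem p hp
            obtain ⟨b1', b2', b3'⟩ := hmem p' hp'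
            exact hinj p b1 p' b1' (b2.trans b2'.symm) (b3.trans b3'.symm) hδ
          rw [← hcard]
          have hτ1 : ((τ p1 : 𝓞 K) : K) ≠ 0 := by
            have := (hcore _ hp1s).2.2.2.2.1
            exact_mod_cast this
          have := hsz L (τ p1 : K) hL0 hτ1 (C1 * Z ^ ((1 : ℝ) / 3)) hB (s3.image δ) ?_
          · rw [hd] at this
            exact this
          · intro δ0 hδ0
            obtain ⟨p, hp, rfl⟩ := Finset.mem_image.1 hδ0
            obtain ⟨b1, b2, b3⟩ := hmem p hp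
            have := hcore p b1
            rw [← b3]
            exact ⟨this.2.2.2.2.2.2.2.2.1, this.2.2.2.2.2.2.2.1⟩
        · have hc0 := (hcore _ hp0).1
          apply htau (I p0) ?_ (C3 * Y) hT
          · intro τ0 hτ0
            obtain ⟨p, hp, rfl⟩ := Finset.mem_image.1 hτ0
            simp only [Finset.mem_filter] at hp
            have := hcore p hp.1.1
            rw [← hp.1.2]
            exact ⟨this.2.2.2.1, this.2.2.2.2.1, this.2.2.2.2.2.1, this.2.2.2.2.2.2.1⟩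
          · intro h0
            rw [h0, Ideal.absNorm_bot] at hc0
            omega
      · have hsub : ({x ∈ s | I x = I p0}.image e) ⊆ Finset.Icc 1 E := by
          intro e0 he0
          obtain ⟨p, hp, rfl⟩ := Finset.mem_image.1 he0
          have := hcore p (Finset.mem_filter.1 hp).1
          exact Finset.mem_Icc.2 ⟨this.2.1, this.2.2.1⟩
        have := Finset.card_le_card hsub
        rw [Nat.card_Icc, Nat.add_sub_cancel] at this
        exact_mod_cast this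
    · apply hdivs c hc
      intro J hJ
      obtain ⟨p, hp, rfl⟩ := Finset.mem_image.1 hJ
      rw [Ideal.dvd_span_singleton, ← (hcore p hp).1]
      exact Ideal.absNorm_mem _
  refine key.trans (le_of_eq ?_)
  have hc0 : (0 : ℝ) ≤ c := by positivity
  have hY0 : 0 ≤ Y := by linarith
  have e1 : (Y * (c : ℝ)) ^ ε = Y ^ ε * (c : ℝ) ^ ε := Real.mul_rpow hY0 hc0
  have e2 : (C3 * Y) ^ ε = C3 ^ ε * Y ^ ε := Real.mul_rpow (by linarith) hY0
  have e3 : (Z ^ ((1 : ℝ) / 3)) ^ 2 = Z ^ ((2 : ℝ) / 3) := by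
    rw [← Real.rpow_natCast, ← Real.rpow_mul (by linarith)]
    norm_num
  rw [e1, e2, mul_pow, e3]
  ring

end Pool.Agent.W4.CF
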